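import Mathlib

namespace Pool.Agent.Results.MP_a21721_al.SolvableSolution

/-- The automorphism of the cyclic group of order 7 given by multiplication by a unit. -/
def mulUnit (u : (ZMod 7)ˣ) : MulAut (Multiplicative (ZMod 7)) where
  toFun t := Multiplicative.ofAdd ((u : ZMod 7) * t.toAdd)
  invFun t := Multiplicative.ofAdd (((u⁻¹ : (ZMod 7)ˣ) : ZMod 7) * t.toAdd)
  left_inv t := by
    apply Multiplicative.toAdd.injective
    simp
  right_inv t := by
    apply Multiplicative.toAdd.injective
    simp
  map_mul' s t := by
    apply Multiplicative.toAdd.injective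
    simp [mul_add]

/-- The action of the units modulo 7 on the cyclic group of order 7. -/
def unitsAct : (ZMod 7)ˣ →* MulAut (Multiplicative (ZMod 7)) where
  toFun := mulUnit
  map_one' := by
    ext t
    apply Multiplicative.toAdd.injective
    simp [mulUnit]
  map_mul' u v := by
    ext t
    apply Multiplicative.toAdd.injective
    simp [mulUnit, mul_assoc]

/-- The unit 3 modulo 7 (the inverse of 5). -/
def u3 : (ZMod 7)ˣ := ⟨3, 5, by decide, by decide⟩

/-- The powers of the unit 3, indexed by the cyclic group of order 6. -/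
def pow3 : Multiplicative (ZMod 6) →* (ZMod 7)ˣ where
  toFun k := u3 ^ (k.toAdd.val)
  map_one' := by decide
  map_mul' := by decide

/-- The action of the cyclic group of order 6 on the cyclic group of order 7
in which the generator acts by multiplication by 3. -/
def act : Multiplicative (ZMod 6) →* MulAut (Multiplicative (ZMod 7)) :=
  unitsAct.comp pow3

/-- The Frobenius group of order 42. -/
abbrev G : Type := Multiplicative (ZMod 7) ⋊[act] Multiplicative (ZMod 6)

/-- The generator of the normal subgroup of order 7. -/
def c : G := SemidirectProduct.inl (Multiplicative.ofAdd 1)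

/-- The generator of the complement of order 6. -/
def a : G := SemidirectProduct.inr (Multiplicative.ofAdd 1)

/-- The affine group of the line over the field with 7 elements. -/
abbrev A : Type := Multiplicative (ZMod 7) ⋊[unitsAct] (ZMod 7)ˣ

/-- The shift action on functions on the cyclic group of order 6. -/
def shift : Multiplicative (ZMod 6) →* MulAut (ZMod 6 → A) where
  toFun k :=
    { toFun := fun f j => f (j - k.toAdd)
      invFun := fun f j => f (j + k.toAdd)
      left_inv := fun f => by
        funext j
        simp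
      right_inv := fun f => by
        funext j
        simp
      map_mul' := fun f g => by
        funext j
        simp }
  map_one' := by
    ext f j
    · simp
    · simp
  map_mul' k l := by
    ext f j
    · simp [sub_sub]
    · simp [sub_sub]

/-- The wreath product of the affine group by the cyclic group of order 6. -/
abbrev H : Type := (ZMod 6 → A) ⋊[shift] Multiplicative (ZMod 6)


theorem isSolvable_semidirect {N Q : Type} [Group N] [Group Q] (f : Q →* MulAut N)
    [Group.IsSolvable N] [Group.IsSolvable Q] : Group.IsSolvable (N ⋊[f] Q) := by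
  apply Group.isSolvable_of_ker_le_range (SemidirectProduct.inl (φ := f))
    (SemidirectProduct.rightHom (φ := f))
  rw [SemidirectProduct.range_inl_eq_ker_rightHom]

theorem isSolvable_pi {I B : Type} [Group B] [hB : Group.IsSolvable B] :
    Group.IsSolvable (I → B) := by
  obtain ⟨n, hn⟩ := (Group.isSolvable_def B).1 hB
  refine (Group.isSolvable_def _).2 ⟨n, ?_⟩
  rw [eq_bot_iff]
  intro f hf
  rw [Subgroup.mem_bot]
  funext i
  have h1 := map_derivedSeries_le_derivedSeries (Pi.evalMonoidHom (fun _ : I => B) i) n
  have h2 : Pi.evalMonoidHom (fun _ : I => B) i f ∈ derivedSeries B n :=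
    h1 (Subgroup.mem_map_of_mem _ hf)
  rw [hn, Subgroup.mem_bot] at h2
  exact h2

theorem isSolvable_A : Group.IsSolvable A := by
  have h1 : Group.IsSolvable (Multiplicative (ZMod 7)) := Group.isSolvable_of_comm mul_comm
  have h2 : Group.IsSolvable (ZMod 7)ˣ := Group.isSolvable_of_comm mul_comm
  exact isSolvable_semidirect unitsAct

theorem isSolvable_H : Group.IsSolvable H := by
  have h1 : Group.IsSolvable (Multiplicative (ZMod 6)) := Group.isSolvable_of_comm mul_comm
  have h2 : Group.IsSolvable A := isSolvable_A
  have h3 : Group.IsSolvable (ZMod 6 → A) := isSolvable_pi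
  exact isSolvable_semidirect shift

/-- The embedding of the cyclic group of order 7 in the base group. -/
def base : Multiplicative (ZMod 7) →* (ZMod 6 → A) where
  toFun t := fun j => SemidirectProduct.inl (Multiplicative.ofAdd ((5 : ZMod 7) ^ j.val * t.toAdd))
  map_one' := by
    funext j
    simp
  map_mul' s t := by
    funext j
    rw [Pi.mul_apply, ← map_mul, ← ofAdd_add]
    simp [mul_add]

theorem compat_aux : ∀ (g j : ZMod 6) (t : ZMod 7),
    (5 : ZMod 7) ^ j.val * ((((u3 ^ g.val : (ZMod 7)ˣ) : ZMod 7)) * t) =
      (5 : ZMod 7) ^ (j - g).val * t := by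
  decide

/-- The embedding of the Frobenius group in the wreath product. -/
def emb : G →* H :=
  SemidirectProduct.map base (MonoidHom.id _) (by
    intro g
    refine MonoidHom.ext fun t => funext fun j => SemidirectProduct.ext ?_ rfl
    exact congrArg Multiplicative.ofAdd (compat_aux g.toAdd j t.toAdd))

theorem emb_injective : Function.Injective emb := by
  intro x y hxy
  have h1 := congrArg SemidirectProduct.left hxy
  have h2 := congrArg SemidirectProduct.right hxy
  apply SemidirectProduct.ext
  · have h3 := congrArg SemidirectProduct.left (congrFun h1 0)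
    have h4 : Multiplicative.ofAdd ((5 : ZMod 7) ^ (0 : ZMod 6).val * x.left.toAdd) =
        Multiplicative.ofAdd ((5 : ZMod 7) ^ (0 : ZMod 6).val * y.left.toAdd) := h3
    have h5 := Multiplicative.ofAdd.injective h4
    have h6 : ((5 : ZMod 7) ^ (0 : ZMod 6).val) = 1 := by decide
    rw [h6, one_mul, one_mul] at h5
    exact Multiplicative.toAdd.injective h5
  · exact h2

/-- The unit 6 modulo 7. -/
def u6 : (ZMod 7)ˣ := ⟨6, 6, by decide, by decide⟩

/-- The solution in the base group. -/
def sol : ZMod 6 → A := fun j =>
  ![(⟨Multiplicative.ofAdd 5, 1⟩ : A), ⟨Multiplicative.ofAdd 0, u6⟩, ⟨Multiplicative.ofAdd 4, u6⟩,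
    ⟨Multiplicative.ofAdd 2, 1⟩, ⟨Multiplicative.ofAdd 2, u6⟩, ⟨Multiplicative.ofAdd 5, u6⟩] j

theorem sol_eq : ∀ j : ZMod 6, sol j * (sol (j + 1))⁻¹ * sol (j + 1 + 1) =
    SemidirectProduct.inl (Multiplicative.ofAdd ((5 : ZMod 7) ^ j.val * 1)) := by
  decide

/-- The solution in the wreath product. -/
def h : H := SemidirectProduct.inl sol

theorem conj_emb_a (f : ZMod 6 → A) :
    (emb a)⁻¹ * (SemidirectProduct.inl f : H) * emb a =
      SemidirectProduct.inl (fun j => f (j + 1)) := by
  have h1 : emb a = SemidirectProduct.inr (Multiplicative.ofAdd 1) := by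
    simp [emb, a]
  rw [h1, ← map_inv, ← SemidirectProduct.inl_aut_inv]
  congr 1

theorem emb_c : emb c = SemidirectProduct.inl
    (fun j => SemidirectProduct.inl (Multiplicative.ofAdd ((5 : ZMod 7) ^ j.val * 1))) := by
  simp [emb, c, base]

theorem h_eq : h * ((emb a)⁻¹ * h⁻¹ * emb a) * ((emb a)⁻¹ * (emb a)⁻¹ * h * emb a * emb a) =
    emb c := by
  have e1 : (emb a)⁻¹ * (emb a)⁻¹ * h * emb a * emb a =
      (emb a)⁻¹ * ((emb a)⁻¹ * h * emb a) * emb a := by group
  rw [e1, emb_c]
  unfold h
  rw [conj_emb_a, conj_emb_a, ← map_inv SemidirectProduct.inl sol, conj_emb_a, ← map_mul,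
    ← map_mul]
  congr 1
  funext j
  exact sol_eq j

theorem a_conj_c : a⁻¹ * c * a = c ^ 5 := by decide

theorem orderOf_c : orderOf c = 7 := by
  have : Fact (Nat.Prime 7) := ⟨by norm_num⟩
  exact orderOf_eq_prime (by decide) (by decide)

theorem orderOf_a : orderOf a = 6 := by
  rw [orderOf_eq_iff (by norm_num)]
  refine ⟨by decide, ?_⟩
  intro m hm hm0
  interval_cases m <;> decide

theorem card_G : Nat.card G = 42 := by
  rw [SemidirectProduct.card]
  simp

theorem gen_G : Subgroup.closure {c, a} = (⊤ : Subgroup G) := by
  rw [eq_top_iff]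
  intro x _
  have h2 : ∀ (s : ZMod 7) (t : ZMod 6),
      (⟨Multiplicative.ofAdd s, Multiplicative.ofAdd t⟩ : G) = c ^ s.val * a ^ t.val := by
    decide
  have h1 : x = c ^ (x.left.toAdd.val) * a ^ (x.right.toAdd.val) := h2 x.left.toAdd x.right.toAdd
  rw [h1]
  exact Subgroup.mul_mem _ (Subgroup.pow_mem _ (Subgroup.subset_closure (by simp)) _)
    (Subgroup.pow_mem _ (Subgroup.subset_closure (by simp)) _)

/-- The group `G` is the Frobenius group of order 42 of the problem (generated by `c` of order 7 and
`a` of order 6 with `c ^ a = c ^ 5`), and the equation has a solution in a finite solvable group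
containing `G`. -/
theorem result :
    (orderOf c = 7 ∧ orderOf a = 6 ∧ a⁻¹ * c * a = c ^ 5 ∧ Nat.card G = 42 ∧
      Subgroup.closure {c, a} = (⊤ : Subgroup G)) ∧
    ∃ (H : Type) (_ : Group H) (_ : Finite H) (_ : Group.IsSolvable H) (f : G →* H) (h : H),
      Function.Injective f ∧
      h * ((f a)⁻¹ * h⁻¹ * f a) * ((f a)⁻¹ * (f a)⁻¹ * h * f a * f a) = f c := by
  refine ⟨⟨orderOf_c, orderOf_a, a_conj_c, card_G, gen_G⟩,
    H, inferInstance, ?_, isSolvable_H, emb, h, emb_injective, h_eq⟩
  have : Finite A := Finite.of_injective (fun x : A => (x.left, x.right)) (by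
    intro x y hxy
    exact SemidirectProduct.ext (congrArg Prod.fst hxy) (congrArg Prod.snd hxy))
  exact Finite.of_injective (fun x : H => (x.left, x.right)) (by
    intro x y hxy
    exact SemidirectProduct.ext (congrArg Prod.fst hxy) (congrArg Prod.snd hxy))

end Pool.Agent.Results.MP_a21721_al.SolvableSolution
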